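import Pool.Agent.MP_3ee8cb_gt.CZQ.Raw
import Pool.Agent.MP_3ee8cb_gt.CZ.Spec

/-! The two point inequality. -/

namespace Pool.Agent.MP_3ee8cb_gt.CZQ

open Set Filter Topology D3
open CR (Met UT ng bus Riem)
open SC (Ort dn nu)
open scoped RealInnerProductSpace

variable {g h : Met 3} {Φ : ℝ → UT g → UT g} {Ψ : ℝ → UT h → UT h} {F : UT g ≃ₜ UT h}
  {G : LV.Con 3} {a : ℝ} {m m' : MF} {C : TB.Chr 3}

theorem near2 {X Z : Type} [TopologicalSpace X] [NormedAddCommGroup Z] {f : X → Z} {x : X}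
    (hf : ContinuousAt f x) {η : ℝ} (hη : 0 < η) :
    ∀ᶠ q : X × X in 𝓝 (x, x), ‖f q.2 - f q.1‖ < η :=
  ((hf.comp_of_eq continuousAt_snd rfl).sub
    (hf.comp_of_eq continuousAt_fst rfl)).norm.eventually_lt continuousAt_const (by simpa using hη)

theorem fin3 {B θ K L v d e f U : ℝ} (B0 : 0 ≤ B) (t0 : 0 ≤ θ) (t1 : θ ≤ 1)
    (t2 : 12 * θ * (B * K ^ 2) ≤ 1) (v0 : 0 ≤ v) (d0 : 0 ≤ d)
    (e0 : 0 ≤ e) (y1 : e ≤ θ * (K * v)) (y6 : f ≤ 2 * e ^ 2 + 2 * d ^ 2)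
    (h : U ≤ B * f + B * e ^ 2 + B * d ^ 2 - θ * v ^ 2 + L * d * (θ * (K * v)) +
      (d + v) * (θ * v) / 4) :
    U ≤ -(θ / 4 * v ^ 2) + (3 * B + (K * L + 1) ^ 2) * d ^ 2 := by
  have x1 := mul_nonneg (sq_nonneg (K * L + 1)) (sq_nonneg d)
  have h1 := mul_le_mul_of_nonneg_left (pow_le_pow_left₀ e0 y1 2) B0
  have h2 := mul_le_mul_of_nonneg_right t2 (mul_nonneg t0 (sq_nonneg v))
  have h3 := mul_le_mul_of_nonneg_left y6 B0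
  have h4 := mul_nonneg t0 (sq_nonneg (v / 2 - (K * L + 1) * d))
  have h5 := mul_le_mul_of_nonneg_right t1 x1
  have h6 := mul_nonneg t0 (mul_nonneg d0 v0)
  linarith

theorem upx (k : Kit g h Φ Ψ F G a) (o : m.OK) (hg : Ort g m) (p₀ : UT g) :
    ∃ c C₁ : ℝ, 0 < c ∧ 0 ≤ C₁ ∧ ∀ᶠ q : UT g × UT g in 𝓝 (p₀, p₀),
      (bus g Φ q.2 q.1.1.1 + bus g Φ (ng q.1) q.1.1.1 ≤
        cv m (fz m q.2) (q.2.1.1 - q.1.1.1) + C₁ * ‖q.2.1.1 - q.1.1.1‖ ^ 2) ∧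
      (bus g Φ q.1 q.1.1.1 + bus g Φ (ng q.2) q.1.1.1 ≤
        -cv m (fz m q.2) (q.2.1.1 - q.1.1.1) + C₁ * ‖q.2.1.1 - q.1.1.1‖ ^ 2) ∧
      ∃ u, bus g Φ q.2 u + bus g Φ (ng q.1) u +
        (bus g Φ q.1 q.1.1.1 + bus g Φ (ng q.2) q.1.1.1) ≤
          -(c * ‖(fz m q.2).2 - (fz m q.1).2‖ ^ 2) + C₁ * ‖q.2.1.1 - q.1.1.1‖ ^ 2 := by
  obtain ⟨B₀, hB₀⟩ := k.bg.up (‖p₀.1.1‖ + 2)
  obtain ⟨B, B0, hB⟩ : ∃ B, 0 ≤ B ∧ ∀ (p : UT g) (x : V), ‖p.1.1‖ ≤ ‖p₀.1.1‖ + 2 →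
      ‖x‖ ≤ ‖p₀.1.1‖ + 2 → bus g Φ p x + cv m (fz m p) (x - p.1.1) ≤ B * ‖x - p.1.1‖ ^ 2 :=
    ⟨|B₀|, abs_nonneg _, fun p x h1 h2 => by
      rw [← fz_cov o hg]
      exact (hB₀ p x h1 h2).trans (mul_le_mul_of_nonneg_right (le_abs_self _) (sq_nonneg _))⟩
  obtain ⟨K, hK⟩ : ∃ K, K = ‖m.R p₀.1.1‖ := ⟨_, rfl⟩
  obtain ⟨L, hL⟩ : ∃ L, L = ‖fderiv ℝ m.S p₀.1.1‖ := ⟨_, rfl⟩
  have K0 : 0 ≤ K := hK ▸ norm_nonneg _
  have L0 : 0 ≤ L := hL ▸ ContinuousLinearMap.opNorm_nonneg _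
  obtain ⟨θ, t0, t1, t2⟩ : ∃ θ : ℝ, 0 < θ ∧ θ ≤ 1 ∧ 12 * θ * (B * K ^ 2) ≤ 1 :=
    ⟨1 / (12 * (B * K ^ 2) + 1), by positivity,
      (div_le_one (by positivity)).2 (by nlinarith [mul_nonneg B0 (sq_nonneg K)]), by
        rw [mul_right_comm, mul_one_div, div_le_one (by positivity)]
        linarith⟩
  have c1 : Continuous fun w : UT g => w.1.1 := continuous_fst.comp continuous_subtype_val
  have t3 := (((fz_cont o).comp continuous_fst).tendsto (p₀, p₀)).prodMk_nhds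
    (((fz_cont o).comp continuous_snd).tendsto (p₀, p₀))
  have n1 := near (c1.continuousAt (x := p₀)) one_pos
  refine ⟨θ / 4, 3 * B + (K * L + 1) ^ 2, by positivity, by positivity, ?_⟩
  filter_upwards [(continuous_fst.tendsto (p₀, p₀)).eventually n1,
    (continuous_snd.tendsto (p₀, p₀)).eventually n1,
    t3.eventually (cv_near o (fz m p₀) (δ := 1 / (4 * (K + 1))) (by positivity)),
    near2 (fz_cont o).snd.continuousAt (η := 1 / (K + 1)) (by positivity)] with q b1 b2 b3 b4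
  obtain ⟨p, p'⟩ := q
  simp only [Function.comp_apply] at b1 b2 b3 b4 ⊢
  have s1 := k.bg.self p 0
  have s2 := k.bg.back p 0
  rw [k.zero] at s1 s2
  have r1 : ‖p.1.1‖ ≤ ‖p₀.1.1‖ + 1 := by linarith [norm_le_norm_add_norm_sub' p.1.1 p₀.1.1]
  have r2 : ‖p'.1.1‖ ≤ ‖p₀.1.1‖ + 2 := by linarith [norm_le_norm_add_norm_sub' p'.1.1 p₀.1.1]
  have ngc : ∀ (p : UT g) D, cv m (fz m (ng p)) D = -cv m (fz m p) D := fun p D => by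
    simp [cv_apply, fz, ng]
  obtain ⟨d, hd⟩ : ∃ d, d = p'.1.1 - p.1.1 := ⟨_, rfl⟩
  have e0 : p.1.1 - p'.1.1 = -d := by rw [hd, neg_sub]
  have u1 := hB p' p.1.1 r2 (by linarith)
  have u2 := hB (ng p') p.1.1 r2 (by linarith)
  rw [ngc] at u2
  change _ + -cv m (fz m p') (p.1.1 - p'.1.1) ≤ B * ‖p.1.1 - p'.1.1‖ ^ 2 at u2
  rw [e0, map_neg, norm_neg] at u1 u2
  rw [← hd]
  have x0 := mul_nonneg B0 (sq_nonneg ‖d‖)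
  have x1 := mul_nonneg (sq_nonneg (K * L + 1)) (sq_nonneg ‖d‖)
  refine ⟨by linarith, by linarith, p.1.1 + θ • m.R p₀.1.1 ((fz m p').2 - (fz m p).2), ?_⟩
  obtain ⟨v, hv⟩ : ∃ v, v = (fz m p').2 - (fz m p).2 := ⟨_, rfl⟩
  obtain ⟨η, hη⟩ : ∃ η, η = θ • m.R p₀.1.1 v := ⟨_, rfl⟩
  have z1 : ‖fz m p' - fz m p‖ ≤ ‖d‖ + ‖v‖ := by
    rw [hd, hv]
    exact max_le (le_add_of_nonneg_right (norm_nonneg _)) (le_add_of_nonneg_left (norm_nonneg _))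
  have b5 := (abs_le.1 (b3 η)).1
  change -_ ≤ _ - (⟪(fz m p').2 - (fz m p).2, m.S p₀.1.1 η⟫ +
    ⟪(fz m p₀).2, fderiv ℝ m.S p₀.1.1 (p'.1.1 - p.1.1) η⟫) at b5
  rw [← hv] at b4 b5 ⊢
  rw [← hd] at b5
  rw [← hη]
  have y1 : ‖η‖ ≤ θ * (K * ‖v‖) := by
    rw [hη, norm_smul, Real.norm_of_nonneg t0.le, hK]
    exact mul_le_mul_of_nonneg_left (ContinuousLinearMap.le_opNorm _ _) t0.le
  have v0 := norm_nonneg v
  have d0 := norm_nonneg d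
  have y2 : ‖η‖ ≤ 1 := by
    rw [lt_div_iff₀ (by positivity)] at b4
    nlinarith [mul_nonneg K0 v0]
  have r3 : ‖p.1.1 + η‖ ≤ ‖p₀.1.1‖ + 2 := by linarith [norm_add_le p.1.1 η]
  have u3 := hB p' _ r2 r3
  have u4 := hB (ng p) _ (by change ‖p.1.1‖ ≤ _; linarith) r3
  rw [ngc] at u4
  change _ + -cv m (fz m p) (p.1.1 + η - p.1.1) ≤ B * ‖p.1.1 + η - p.1.1‖ ^ 2 at u4
  rw [add_sub_cancel_left] at u4
  rw [show p.1.1 + η - p'.1.1 = η - d by rw [hd]; abel, map_sub] at u3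
  have y3 : ⟪v, m.S p₀.1.1 η⟫ = θ * ‖v‖ ^ 2 := by
    rw [hη, map_smul, o.SR, real_inner_smul_right, real_inner_self_eq_norm_sq]
  have y4 : -(L * ‖d‖ * (θ * (K * ‖v‖))) ≤ ⟪(fz m p₀).2, fderiv ℝ m.S p₀.1.1 d η⟫ := by
    have h1 := (abs_le.1 (abs_real_inner_le_norm (fz m p₀).2 (fderiv ℝ m.S p₀.1.1 d η))).1
    have h2 := (fderiv ℝ m.S p₀.1.1).le_opNorm₂ d η
    rw [show ‖(fz m p₀).2‖ = 1 from SC.norm_S o hg p₀] at h1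
    rw [← hL] at h2
    nlinarith [mul_le_mul_of_nonneg_left y1 (mul_nonneg L0 d0)]
  have y5 : 1 / (4 * (K + 1)) * ‖fz m p' - fz m p‖ * ‖η‖ ≤ (‖d‖ + ‖v‖) * (θ * ‖v‖) / 4 := by
    rw [mul_assoc, one_div, inv_mul_le_iff₀ (by positivity)]
    nlinarith [mul_le_mul z1 y1 (norm_nonneg _) (by positivity),
      mul_nonneg (add_nonneg d0 v0) (mul_nonneg t0.le v0)]
  have y6 : ‖η - d‖ ^ 2 ≤ 2 * ‖η‖ ^ 2 + 2 * ‖d‖ ^ 2 := by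
    have := parallelogram_law_with_norm ℝ η d
    nlinarith [sq_nonneg ‖η + d‖]
  exact fin3 B0 t0.le t1 t2 v0 d0 (norm_nonneg η) y1 y6 (by linarith)

theorem con (k : Kit g h Φ Ψ F G a) (ha : 0 < a) (o : m.OK) (hg : Ort g m) (o' : m'.OK)
    (l : Lk h C Ψ m') (ch : TB.IsChr h C) (p₀ : UT g) (t : ℝ) {ψ : UT g → V × V}
    (hψ : ∀ p, ψ p = fz m' (Ψ t (F p))) : ∃ B : ℝ, 0 ≤ B ∧ ∀ᶠ q : UT g × UT g in 𝓝 (p₀, p₀),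
      |cv m' (ψ q.2) ((ψ q.2).1 - (ψ q.1).1) - cv m (fz m q.2) (q.2.1.1 - q.1.1.1)| ≤
        B * (‖q.2.1.1 - q.1.1.1‖ ^ 2 + ‖ψ q.2 - ψ q.1‖ ^ 2) := by
  obtain ⟨c, B, -, B0, hx⟩ := upx k o hg p₀
  have he : ‖(ψ p₀).2‖ = 1 := by rw [hψ]; exact SC.norm_S o' l.orth _
  obtain ⟨M, hM⟩ : ∃ M, M = ‖m'.ver (ψ p₀)‖ + a / 8 := ⟨_, rfl⟩
  obtain ⟨N, hN⟩ : ∃ N, N = ‖m'.hor (ψ p₀)‖ := ⟨_, rfl⟩
  obtain ⟨L, hL⟩ : ∃ L, L = ‖cv m' (ψ p₀)‖ * ‖G (ψ p₀).1‖ := ⟨_, rfl⟩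
  have L0 : 0 ≤ L := by rw [hL]; positivity
  refine ⟨B + (2 * M ^ 2 / a + a * N ^ 2 + L), by positivity, ?_⟩
  filter_upwards [hx, raw k ha o' l ch p₀ t (δ := a / 8) (by positivity) hψ] with q hq hr
  obtain ⟨x, y, κ, H, hx0, hy0, hκ, hH, hu⟩ := hr
  obtain ⟨u1, u2⟩ := hu q.1.1.1
  have d1 : ‖(ψ q.2).1 - (ψ q.1).1‖ ≤ ‖ψ q.2 - ψ q.1‖ := norm_fst_le (ψ q.2 - ψ q.1)
  generalize (ψ q.2).1 - (ψ q.1).1 = d at *
  generalize ψ q.2 - ψ q.1 = Δ at *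
  have k1 : ∀ ξ, ⟪(ψ p₀).2, ξ⟫ = 0 → -((2 * M ^ 2 / a + a * N ^ 2) * ‖Δ‖ ^ 2) ≤ -|κ ξ| +
        (qq a (a / 8) (ψ p₀).2 (ξ - m'.hor (ψ p₀) Δ) + qq a (a / 8) (ψ p₀).2 ξ) := fun ξ h0 => by
    have h1 := two_low le_rfl (by positivity : 0 ≤ a / 8) (m'.hor (ψ p₀) Δ) he h0
    have h2 := pow_le_pow_left₀ (norm_nonneg _) ((m'.hor (ψ p₀)).le_opNorm Δ) 2
    have h3 : |κ ξ| ≤ M * ‖Δ‖ * ‖ξ‖ := by
      have h4 := abs_real_inner_le_norm (m'.ver (ψ p₀) Δ) ξ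
      have h5 := mul_le_mul_of_nonneg_right ((m'.ver (ψ p₀)).le_opNorm Δ) (norm_nonneg ξ)
      have h6 := abs_sub_abs_le_abs_sub (κ ξ) ⟪m'.ver (ψ p₀) Δ, ξ⟫
      rw [hM]
      linarith [hκ ξ]
    have h7 : M * ‖Δ‖ * ‖ξ‖ ≤ a / 8 * ‖ξ‖ ^ 2 + 2 * M ^ 2 / a * ‖Δ‖ ^ 2 := by
      refine le_of_mul_le_mul_left ?_ ha
      have : a * (2 * M ^ 2 / a * ‖Δ‖ ^ 2) = 2 * M ^ 2 * ‖Δ‖ ^ 2 := by field_simp
      nlinarith [sq_nonneg (a * ‖ξ‖ - 4 * M * ‖Δ‖)]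
    rw [← hN, mul_pow] at h2
    have h8 := mul_le_mul_of_nonneg_left h2 ha.le
    linarith
  have k2 : |cv m' (ψ p₀) (G (ψ p₀).1 d d)| ≤ L * ‖Δ‖ ^ 2 := by
    have h1 := (cv m' (ψ p₀)).le_opNorm (G (ψ p₀).1 d d)
    have h2 := mul_le_mul_of_nonneg_left ((G (ψ p₀).1).le_opNorm₂ d d)
      (norm_nonneg (cv m' (ψ p₀)))
    have h3 := mul_le_mul_of_nonneg_left (pow_le_pow_left₀ (norm_nonneg _) d1 2) L0
    rw [Real.norm_eq_abs] at h1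
    rw [hL] at h3 ⊢
    nlinarith
  have k3 := k1 x hx0
  have k4 := k1 y hy0
  have k5 := abs_le.1 k2
  have k6 : 0 ≤ (2 * M ^ 2 / a + a * N ^ 2 + L) * ‖q.2.1.1 - q.1.1.1‖ ^ 2 := by positivity
  have k7 : 0 ≤ B * ‖Δ‖ ^ 2 := by positivity
  have k8 : 0 ≤ L * ‖Δ‖ ^ 2 := by positivity
  rw [abs_le]
  constructor <;> nlinarith [hq.1, hq.2.1, le_abs_self (κ x), neg_abs_le (κ y)]

theorem two (k : Kit g h Φ Ψ F G a) (ha : 0 < a) (o : m.OK) (hg : Ort g m) (o' : m'.OK)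
    (l : Lk h C Ψ m') (ch : TB.IsChr h C) (p₀ : UT g) : ∃ c : ℝ, 0 < c ∧ ∀ (t ε : ℝ), 0 < ε →
    ∀ ψ : UT g → V × V, (∀ p, ψ p = fz m' (Ψ t (F p))) → ∃ B : ℝ, 0 ≤ B ∧
      ∀ᶠ q : UT g × UT g in 𝓝 (p₀, p₀), c * ‖(fz m q.2).2 - (fz m q.1).2‖ ^ 2 +
        a ^ 2 * ‖m'.hor (ψ p₀) (ψ q.2 - ψ q.1)‖ ^ 2 ≤
          (1 + ε) * ‖m'.ver (ψ p₀) (ψ q.2 - ψ q.1)‖ ^ 2 + B * ‖q.2.1.1 - q.1.1.1‖ ^ 2 := by
  obtain ⟨c, B, c0, B0, hx⟩ := upx k o hg p₀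
  refine ⟨a * c, by positivity, fun t ε hε ψ hψ => ?_⟩
  obtain ⟨η, L, η0, L0, r2⟩ := real2 ha hε
  obtain ⟨δ, d0, d1, r1⟩ := real1 ha η0
  obtain ⟨B', B1, hc⟩ := con k ha o hg o' l ch p₀ t hψ
  have he : ‖(ψ p₀).2‖ = 1 := by rw [hψ]; exact SC.norm_S o' l.orth _
  have cψ : Continuous ψ := by
    rw [funext hψ]
    exact (fz_cont o').comp (k.jc.comp (continuous_const.prodMk F.continuous))
  have cc : ∀ {m : MF}, m.OK → Continuous (cv m) := fun o =>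
    ((innerSL ℝ).continuous.comp continuous_snd).clm_comp (o.cS.continuous.comp continuous_fst)
  have c1 : Continuous fun w : UT g => w.1.1 := continuous_fst.comp continuous_subtype_val
  obtain ⟨K, hK⟩ : ∃ K, K = ‖m'.R (ψ p₀).1‖ := ⟨_, rfl⟩
  obtain ⟨W, hW⟩ : ∃ W, W = ‖m'.om (ψ p₀).1‖ := ⟨_, rfl⟩
  obtain ⟨Y, hY⟩ : ∃ Y, Y = ‖cv m (fz m p₀)‖ + 2 := ⟨_, rfl⟩
  have K0 : 0 ≤ K := hK ▸ norm_nonneg _
  have W0 : 0 ≤ W := hW ▸ ContinuousLinearMap.opNorm_nonneg _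
  obtain ⟨ρ, ρ0, ρ1⟩ : ∃ ρ : ℝ, 0 < ρ ∧ 2 * ρ * (1 + K + W * K) = δ :=
    ⟨δ / (2 * (1 + K + W * K)), by positivity, by field_simp⟩
  have ρ2 : ρ ≤ δ := by nlinarith [mul_nonneg W0 K0]
  refine ⟨L * (2 * a ^ 2 * Y ^ 2 + 2 * a * B), by positivity, ?_⟩
  filter_upwards [hx, hc, raw k ha o' l ch p₀ t ρ0 hψ,
    (continuous_snd.tendsto (p₀, p₀)).eventually
      (near ((cc o').comp cψ).continuousAt ρ0),
    (continuous_snd.tendsto (p₀, p₀)).eventually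
      (near ((cc o).comp (fz_cont o)).continuousAt one_pos),
    near2 cψ.continuousAt (η := ρ / (B' + 1)) (by positivity),
    near2 c1.continuousAt (η := 1 / (B' + 1)) (by positivity)] with q hq h2 hr b1 b2 b3 b4
  obtain ⟨x, y, κ, H, hx0, hy0, hκ, -, hu⟩ := hr
  obtain ⟨-, -, u, hq⟩ := hq
  have u1 := (hu u).1
  have u2 := (hu q.1.1.1).2
  simp only [Function.comp_apply] at b1 b2
  have e1 : (ψ q.2).1 - (ψ q.1).1 = (ψ q.2 - ψ q.1).1 := rfl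
  rw [e1] at h2
  generalize ψ q.2 - ψ q.1 = Δ at *
  generalize q.2.1.1 - q.1.1.1 = X at *
  have v0 := sq_nonneg ‖(fz m q.2).2 - (fz m q.1).2‖
  generalize ‖(fz m q.2).2 - (fz m q.1).2‖ ^ 2 = v at *
  obtain ⟨N, hN⟩ : ∃ N, N = ‖m'.hor (ψ p₀) Δ‖ := ⟨_, rfl⟩
  obtain ⟨J, hJ⟩ : ∃ J, J = ‖m'.ver (ψ p₀) Δ‖ := ⟨_, rfl⟩
  have N0 : 0 ≤ N := hN ▸ norm_nonneg _
  have J0 : 0 ≤ J := hJ ▸ norm_nonneg _
  have Δ0 := norm_nonneg Δ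
  have X0 := norm_nonneg X
  have s1 : ‖Δ.1‖ ≤ K * N := by rw [hK, hN]; exact le_R o' _ _
  have s2 : ‖Δ.2‖ ≤ J + W * (K * N) := by
    have h1 : Δ.2 = m'.ver (ψ p₀) Δ - m'.om (ψ p₀).1 Δ.1 (ψ p₀).2 :=
      (add_sub_cancel_right _ _).symm
    have h3 := (m'.om (ψ p₀).1).le_opNorm₂ Δ.1 (ψ p₀).2
    rw [he, ← hW, mul_one] at h3
    rw [h1, hJ]
    linarith [norm_sub_le (m'.ver (ψ p₀) Δ) (m'.om (ψ p₀).1 Δ.1 (ψ p₀).2),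
      mul_le_mul_of_nonneg_left s1 W0]
  have s3 : 2 * ρ * ‖Δ‖ ≤ δ * (N + J) := by
    have h1 : ‖Δ‖ ≤ (1 + K + W * K) * (N + J) := by
      have h3 := mul_nonneg W0 K0
      refine max_le ?_ ?_ <;>
        nlinarith [mul_nonneg K0 J0, mul_nonneg h3 J0, mul_nonneg h3 N0, mul_nonneg K0 N0]
    rw [← ρ1, mul_assoc (2 * ρ)]
    exact mul_le_mul_of_nonneg_left h1 (by positivity)
  have s4 : |⟪(ψ p₀).2, m'.hor (ψ p₀) Δ⟫| ≤ Y * ‖X‖ + δ * (N + J) := by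
    have h1 := (cv m' (ψ q.2) - cv m' (ψ p₀)).le_opNorm Δ.1
    have h3 := (cv m (fz m q.2)).le_opNorm X
    have h4 := norm_le_norm_add_norm_sub' (cv m (fz m q.2)) (cv m (fz m p₀))
    have h5 := mul_le_mul b1.le (norm_fst_le Δ) (norm_nonneg _) ρ0.le
    have h6 : B' * ‖Δ‖ ^ 2 ≤ ρ * ‖Δ‖ := by
      rw [lt_div_iff₀ (by positivity)] at b3
      linarith [mul_le_mul_of_nonneg_right b3.le Δ0, sq_nonneg ‖Δ‖]
    have h7 : B' * ‖X‖ ^ 2 ≤ ‖X‖ := by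
      rw [lt_div_iff₀ (by positivity)] at b4
      linarith [mul_le_mul_of_nonneg_right b4.le X0, sq_nonneg ‖X‖]
    have h8 := mul_le_mul_of_nonneg_right (h4.trans (add_le_add_right b2.le _)) X0
    rw [Real.norm_eq_abs] at h1 h3
    rw [sub_apply] at h1
    change |cv m' (ψ p₀) Δ.1| ≤ _
    rw [hY]
    have h9 := abs_le.1 h1
    have h10 := abs_le.1 h2
    have h11 := abs_le.1 h3
    rw [abs_le]
    constructor <;> linarith [h9.1, h9.2, h10.1, h10.2, h11.1, h11.2]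
  have s5 := four (a := a) (δ := ρ) (by linarith) (m'.hor (ψ p₀) Δ) he hx0 hy0
  have s6 : κ x - κ y ≤ (J + δ * (N + J)) * ‖x - y‖ := by
    have h1 := (abs_le.1 (hκ (x - y))).2
    have h3 := real_inner_le_norm (m'.ver (ψ p₀) Δ) (x - y)
    have h4 := mul_le_mul_of_nonneg_right s3 (norm_nonneg (x - y))
    have h5 : 0 ≤ ρ * ‖Δ‖ * ‖x - y‖ := by positivity
    rw [map_sub] at h1
    rw [← hJ] at h3
    linarith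
  have s7 : ⟪(ψ p₀).2, m'.hor (ψ p₀) Δ⟫ ^ 2 ≤ N ^ 2 := by
    have := abs_real_inner_le_norm (ψ p₀).2 (m'.hor (ψ p₀) Δ)
    rw [he, one_mul, ← hN] at this
    exact sq_le_sq' (by linarith [(abs_le.1 this).1]) (abs_le.1 this).2
  rw [← hN] at s5 ⊢
  rw [← hJ]
  generalize ⟪(ψ p₀).2, m'.hor (ψ p₀) Δ⟫ = lam at *
  have s8 := r1 N lam J ‖x - y‖ (Y * ‖X‖) (-(c * v) + B * ‖X‖ ^ 2) N0 J0 (norm_nonneg _) s4 (by
    linarith [mul_le_mul_of_nonneg_right ρ2 (sq_nonneg lam),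
      mul_le_mul_of_nonneg_right ρ2 (add_nonneg (sq_nonneg ‖x - y‖) (sub_nonneg.2 s7))])
  have s9 := mul_nonneg c0.le v0
  have s10 := mul_nonneg B0 (sq_nonneg ‖X‖)
  have s11 := r2 (a * c * v) (N ^ 2) (J ^ 2) ((2 * a ^ 2 * Y ^ 2 + 2 * a * B) * ‖X‖ ^ 2)
    (by positivity) (sq_nonneg _) (by positivity) (by
      linarith [mul_le_mul_of_nonneg_right d1 s9, mul_nonneg d0.le s10, mul_nonneg ha.le s9])
  linarith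

theorem lift (o : m.OK) (hg : Ort g m) {z₀ : V × V} (h0 : ‖z₀.2‖ = 1) :
    ∃ P : V × V → UT g, Tendsto P (𝓝 z₀) (𝓝 (P z₀)) ∧ ∀ z, ‖z.2‖ = 1 → fz m (P z) = z := by
  classical
  have ne : ∀ z : V × V, ‖z.2‖ = 1 → z.2 ≠ 0 := fun z hz e => by simp [e] at hz
  obtain ⟨P, hP⟩ : ∃ P : V × V → UT g, ∀ (w : V × V) (hw : w.2 ≠ 0),
      P w = ⟨nu m w, SC.nu_mem hg hw⟩ :=
    ⟨fun w => if hw : w.2 ≠ 0 then ⟨nu m w, SC.nu_mem hg hw⟩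
      else ⟨nu m z₀, SC.nu_mem hg (ne z₀ h0)⟩, fun w hw => dif_pos hw⟩
  refine ⟨P, ?_, fun z hz => ?_⟩
  · rw [tendsto_subtype_rng, hP z₀ (ne z₀ h0)]
    refine (SC.nu_cd o (ne z₀ h0)).continuousAt.tendsto.congr' ?_
    filter_upwards [(isOpen_ne.preimage continuous_snd).mem_nhds (ne z₀ h0)] with w hw
    rw [hP w hw]
  · rw [hP z (ne z hz)]
    simp [fz, nu, o.SR, hz]

/-- The two point inequalities. -/
theorem sLIP : CZ.SLIP := by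
  intro g h C C' Γ Λ _ _ _ _ Φ Ψ ρ F qg qh _ ch _ _ cj a m m' φ ha hc o _ o' j' lg l _ _ hr _
    z₀ h0
  obtain ⟨G, k⟩ := kit_of qg qh cj ha hc
  obtain ⟨P, hP, e⟩ := lift o lg.orth h0
  obtain ⟨c, c0, h1⟩ := two k ha o lg.orth o' l ch (P z₀)
  refine ⟨c, c0, fun t ε hε => ?_⟩
  obtain ⟨B, B0, h2⟩ := h1 t ε hε _ fun _ => rfl
  obtain ⟨B', B1, h3⟩ := con k ha o lg.orth o' l ch (P z₀) t fun _ => rfl
  have e1 : ∀ z : V × V, ‖z.2‖ = 1 → m'.Z t (φ z) = fz m' (Ψ t (F (P z))) := fun z hz => by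
    have e2 := hr 1 (P z) one_ne_zero
    rw [show dn m 1 (P z) = z from Eq.trans (by simp [dn, fz]) (e z hz)] at e2
    rw [e2, SC.Z_dn j' l]
    simp [dn, fz]
  have t1 := hP.comp (continuous_fst.tendsto (z₀, z₀))
  have t2 := hP.comp (continuous_snd.tendsto (z₀, z₀))
  refine ⟨B + B', ?_⟩
  filter_upwards [self_mem_nhdsWithin, nhdsWithin_le_nhds ((t1.prodMk_nhds t2).eventually h2),
    nhdsWithin_le_nhds ((t2.prodMk_nhds t1).eventually h3)] with p hp b1 b2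
  simp only [Function.comp_apply] at b1 b2
  have f1 : ∀ z : V × V, ‖z.2‖ = 1 → (P z).1.1 = z.1 := fun z hz =>
    congrArg (fun w : V × V => w.1) (e z hz) ▸ rfl
  rw [e _ hp.1, f1 _ hp.1, f1 _ hp.2, ← e1 _ hp.1, ← e1 _ hp.2] at b1 b2
  rw [e _ hp.2, ← e1 _ h0] at b1
  refine ⟨by linarith [mul_nonneg B1 (sq_nonneg ‖p.2.1 - p.1.1‖)], ?_⟩
  rw [← neg_sub (m'.Z t (φ p.2)).1, ← neg_sub p.2.1, ← neg_sub (m'.Z t (φ p.2)), map_neg, map_neg,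
    norm_neg, norm_neg, neg_sub_neg, abs_sub_comm] at b2
  have d1 := pow_le_pow_left₀ (norm_nonneg _) (norm_fst_le (p.2 - p.1)) 2
  refine b2.trans (mul_le_mul (by linarith) (add_le_add_left d1 _) (by positivity) (by linarith))

end Pool.Agent.MP_3ee8cb_gt.CZQ
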