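import Pool.Agent.MP_3ee8cb_gt.CZ.Spec
import Pool.Agent.MP_3ee8cb_gt.D3NB.End

/-! The inequality for the curvature form. -/

namespace Pool.Agent.MP_3ee8cb_gt.CZ

open Set MeasureTheory D3
open D3NB (XX GG GG_c1 GG_symm GG_pos GG_flat dv_const)
open D3NP (dv)
open scoped RealInnerProductSpace

theorem rPZ : R_PZ := by
  intro _ fd pos m lg σ a hi b T G K Om Om0 D ζ c1 nn cs
  obtain ⟨d, B⟩ := fd m lg σ a hi b T G K Om Om0 D
  have dd : d.ε * d.ε = 1 := by rcases B.ok.eps with h | h <;> rw [h] <;> norm_num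
  obtain ⟨p0, p1⟩ := pos d B.ok (fun z => d.ε • GG m z) ζ ⟨(GG_c1 D.ok D.c2).const_smul d.ε,
    fun z x y => by
      simp only [smul_apply, real_inner_smul_left, real_inner_smul_right, GG_symm D.ok D.jac],
    fun z x => by
      have h1 := (by positivity : (0 : ℝ) ≤ _).trans (GG_pos D.ok D.jac D.up z x)
      rw [smul_apply, real_inner_smul_left]
      refine nonneg_of_mul_nonneg_right ?_ (B.eps z)
      have : d.ε * (m.S z).det * (d.ε * ⟪GG m z x, x⟫) = (m.S z).det * ⟪GG m z x, x⟫ := by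
        linear_combination (m.S z).det * ⟪GG m z x, x⟫ * dd
      rwa [this]⟩ ⟨c1, nn, cs, subset_univ _⟩
  have ec : d.c = fun u => (PK m σ K u).1 := by
    funext u
    rw [CZK.FD.c, B.c, ← B.km]
    rfl
  have et : d.ϑ = fun u => ContinuousLinearMap.adjoint (m.S (PK m σ K u).1) (PK m σ K u).2 := by
    funext u
    rw [CZK.FD.ϑ, B.th, ← B.km]
    rfl
  have p3 : ∀ u, d.ε * dv d.c (fun v => ζ (d.c v) • d.X (fun z => d.ε • GG m z) v) u =
      CZH.dw m (PK m σ K) ζ u := fun u => by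
    rw [← dv_const]
    have e : (fun v => d.ε • ζ (d.c v) • d.X (fun z => d.ε • GG m z) v) =
        fun v => ζ (PK m σ K v).1 • XX m (PK m σ K v).1 (PK m σ K v).2 := by
      funext v
      rw [CZK.FD.X, smul_apply, ec, et, GG_flat D.ok, smul_comm, smul_smul d.ε, dd, one_smul]
    rw [e, ec]
    rfl
  rw [← B.rs, ← funext p3]
  exact ⟨(p0.mono_set fun _ h => B.ok.gs h.1).const_mul d.ε, p1⟩

end Pool.Agent.MP_3ee8cb_gt.CZ
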