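import Pool.Agent.MP_3ee8cb_gt.D3.Defs

/-! The two point inequality: algebra. -/

namespace Pool.Agent.MP_3ee8cb_gt.CZQ

open Set Filter Topology D3
open scoped RealInnerProductSpace

/-- The quadratic part of the lower bound. -/
noncomputable def qq (a δ : ℝ) (e ξ : V) : ℝ := a / 2 * (‖ξ‖ ^ 2 - ⟪e, ξ⟫ ^ 2) - δ * ‖ξ‖ ^ 2

theorem four {a δ : ℝ} (h : δ ≤ a / 2) {e x y : V} (d : V) (he : ‖e‖ = 1) (hx : ⟪e, x⟫ = 0)
    (hy : ⟪e, y⟫ = 0) : (a / 2 - δ) * (‖x - y‖ ^ 2 + (‖d‖ ^ 2 - ⟪e, d⟫ ^ 2)) - 2 * δ * ⟪e, d⟫ ^ 2 ≤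
      qq a δ e (x - d) + qq a δ e x + qq a δ e y + qq a δ e (y - d) := by
  have c : ⟪e, x + y - d⟫ ^ 2 ≤ ‖x + y - d‖ ^ 2 := by
    have := abs_real_inner_le_norm e (x + y - d)
    rw [he, one_mul] at this
    exact sq_le_sq' (by linarith [(abs_le.1 this).1]) (abs_le.1 this).2
  rw [inner_sub_right, inner_add_right, hx, hy, norm_sub_sq_real, norm_add_sq_real,
    inner_add_left] at c
  have := mul_le_mul_of_nonneg_left c (sub_nonneg.2 h)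
  simp only [qq, inner_sub_right, hx, hy, norm_sub_sq_real]
  nlinarith

theorem two_low {a δ : ℝ} (h : δ ≤ a / 8) (h0 : 0 ≤ δ) {e x : V} (d : V) (he : ‖e‖ = 1)
    (hx : ⟪e, x⟫ = 0) : a / 8 * ‖x‖ ^ 2 - a * ‖d‖ ^ 2 ≤ qq a δ e (x - d) + qq a δ e x := by
  have c : ⟪e, x - d⟫ ^ 2 ≤ ‖x - d‖ ^ 2 := by
    have := abs_real_inner_le_norm e (x - d)
    rw [he, one_mul] at this
    exact sq_le_sq' (by linarith [(abs_le.1 this).1]) (abs_le.1 this).2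
  have c2 : ‖x - d‖ ^ 2 ≤ 2 * ‖x‖ ^ 2 + 2 * ‖d‖ ^ 2 := by
    have := parallelogram_law_with_norm ℝ x d
    nlinarith [sq_nonneg ‖x + d‖]
  have a0 : 0 ≤ a := by linarith
  have c3 := mul_le_mul h c2 (sq_nonneg _) (by linarith)
  have c4 := mul_le_mul_of_nonneg_right h (sq_nonneg ‖x‖)
  have c5 := mul_le_mul_of_nonneg_left c a0
  have c6 := mul_nonneg a0 (sq_nonneg ‖d‖)
  simp only [qq, hx]
  nlinarith

theorem real1 {a η : ℝ} (ha : 0 < a) (hη : 0 < η) : ∃ δ, 0 < δ ∧ δ ≤ a / 8 ∧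
    ∀ N l k z Y U : ℝ, 0 ≤ N → 0 ≤ k → 0 ≤ z → |l| ≤ Y + δ * (N + k) →
      -((k + δ * (N + k)) * z) + (a / 2 - δ) * (z ^ 2 + (N ^ 2 - l ^ 2)) - 2 * δ * l ^ 2 ≤ U →
      a ^ 2 * N ^ 2 ≤ k ^ 2 + η * (N ^ 2 + k ^ 2) + 2 * a ^ 2 * Y ^ 2 + 2 * (a - 2 * δ) * U := by
  have p : 0 < 4 * a + 5 + 4 * a ^ 2 := by positivity
  obtain ⟨δ, d0, d1, d2, d3⟩ : ∃ δ : ℝ, 0 < δ ∧ δ ≤ a / 8 ∧ δ ≤ 1 ∧
      δ * (4 * a + 5 + 4 * a ^ 2) ≤ η :=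
    ⟨min (a / 8) (min 1 (η / (4 * a + 5 + 4 * a ^ 2))), by positivity, min_le_left _ _,
      (min_le_right _ _).trans (min_le_left _ _),
      (le_div_iff₀ p).1 ((min_le_right _ _).trans (min_le_right _ _))⟩
  refine ⟨δ, d0, d1, fun N l k z Y U hN hk hz hl hU => ?_⟩
  obtain ⟨s, hs⟩ : ∃ s, s = δ * (N + k) := ⟨_, rfl⟩
  obtain ⟨M, hM⟩ : ∃ M, M = N ^ 2 + k ^ 2 := ⟨_, rfl⟩
  obtain ⟨b, hb⟩ : ∃ b, b = a - 2 * δ := ⟨_, rfl⟩
  have b0 : 0 < b := by linarith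
  have M0 : 0 ≤ M := by rw [hM]; positivity
  rw [← hs] at hl hU
  rw [← hM, ← hb]
  have e1 : b ^ 2 * N ^ 2 ≤ (k + s) ^ 2 + a ^ 2 * l ^ 2 + 2 * b * U := by
    have h1 := mul_le_mul_of_nonneg_left hU (by positivity : 0 ≤ 2 * b)
    have h2 : a / 2 - δ = b / 2 := by linarith
    have h3 : a = b + 2 * δ := by linarith
    rw [h2] at h1
    rw [h3]
    nlinarith [sq_nonneg (b * z - (k + s)), mul_nonneg (sq_nonneg δ) (sq_nonneg l),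
      mul_nonneg (mul_nonneg d0.le b0.le) (sq_nonneg l)]
  have e2 : l ^ 2 ≤ 2 * Y ^ 2 + 2 * s ^ 2 := by
    have := sq_le_sq' (by linarith [(abs_le.1 hl).1]) (abs_le.1 hl).2
    nlinarith [sq_nonneg (Y - s)]
  have e3 : s ^ 2 ≤ 2 * δ * M := by
    have h1 : (N + k) ^ 2 ≤ 2 * M := by nlinarith [sq_nonneg (N - k)]
    have h2 : δ ^ 2 ≤ δ := by nlinarith
    have := mul_le_mul h2 h1 (sq_nonneg _) d0.le
    rw [hs, mul_pow]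
    linarith
  have e4 : 2 * k * s ≤ 3 * δ * M := by
    have h1 : 2 * k * (N + k) ≤ 3 * M := by nlinarith [sq_nonneg (N - k), sq_nonneg N]
    have := mul_le_mul_of_nonneg_left h1 d0.le
    rw [hs]
    linarith
  have e5 : (a ^ 2 - b ^ 2) * N ^ 2 ≤ 4 * a * δ * M := by
    have h1 : a ^ 2 - b ^ 2 ≤ 4 * a * δ := by rw [hb]; nlinarith [sq_nonneg δ]
    have h2 : N ^ 2 ≤ M := by nlinarith [sq_nonneg k]
    exact (mul_le_mul_of_nonneg_right h1 (sq_nonneg N)).trans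
      (mul_le_mul_of_nonneg_left h2 (by positivity))
  have e6 := mul_le_mul_of_nonneg_left e2 (sq_nonneg a)
  have e7 := mul_le_mul_of_nonneg_left e3 (sq_nonneg a)
  have e8 := mul_le_mul_of_nonneg_right d3 M0
  nlinarith

theorem real2 {a ε : ℝ} (ha : 0 < a) (hε : 0 < ε) : ∃ η L, 0 < η ∧ 0 ≤ L ∧
    ∀ y N k x : ℝ, 0 ≤ y → 0 ≤ N → 0 ≤ x → y + a ^ 2 * N ≤ k + η * (N + k) + x →
      y + a ^ 2 * N ≤ (1 + ε) * k + L * x := by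
  have p : 0 < a ^ 2 + 1 + ε := by positivity
  have a2 : 0 < a ^ 2 := by positivity
  obtain ⟨η, h0, h1⟩ : ∃ η : ℝ, 0 < η ∧ η * (a ^ 2 + 1 + ε) = ε * a ^ 2 :=
    ⟨ε * a ^ 2 / (a ^ 2 + 1 + ε), by positivity, div_mul_cancel₀ _ p.ne'⟩
  have h2 : 0 < 1 + η := by positivity
  refine ⟨η, (1 + ε) / (1 + η), h0, by positivity, fun y N k x hy hN hx h => ?_⟩
  have h3 : η ≤ ε := by nlinarith
  refine le_of_mul_le_mul_left ?_ h2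
  have h4 : (1 + η) * ((1 + ε) * k + (1 + ε) / (1 + η) * x) = (1 + ε) * ((1 + η) * k + x) := by
    field_simp
  have h5 := mul_le_mul_of_nonneg_left h (by positivity : 0 ≤ 1 + ε)
  have h6 : (1 + η) * a ^ 2 = (1 + ε) * (a ^ 2 - η) := by linarith
  have h7 := mul_le_mul_of_nonneg_right h3 hy
  have h8 : (1 + η) * (a ^ 2 * N) = (1 + ε) * (a ^ 2 - η) * N := by rw [← h6]; ring
  rw [h4]
  nlinarith

/-- The covector of a vector given in the frame. -/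
noncomputable def cv (m : MF) (z : V × V) : V →L[ℝ] ℝ := (innerSL ℝ z.2).comp (m.S z.1)

theorem cv_apply (m : MF) (z : V × V) (D : V) : cv m z D = ⟪z.2, m.S z.1 D⟫ := rfl

theorem cv_near {m : MF} (o : m.OK) (z : V × V) {δ : ℝ} (hδ : 0 < δ) :
    ∀ᶠ q : (V × V) × V × V in 𝓝 (z, z), ∀ D, |cv m q.2 D - cv m q.1 D -
      (⟪q.2.2 - q.1.2, m.S z.1 D⟫ + ⟪z.2, fderiv ℝ m.S z.1 (q.2.1 - q.1.1) D⟫)| ≤
        δ * ‖q.2 - q.1‖ * ‖D‖ := by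
  have h1 := ((o.cS.of_le one_le_two).contDiffAt.hasStrictFDerivAt one_ne_zero (x := z.1)).comp z
    (hasStrictFDerivAt_fst (𝕜 := ℝ) (p := z))
  have h2 := (innerSL ℝ (E := V)).hasStrictFDerivAt.comp z
    (hasStrictFDerivAt_snd (𝕜 := ℝ) (p := z))
  have h3 := (h2.clm_comp h1).isLittleO.bound hδ
  filter_upwards [(continuous_swap.tendsto (z, z)).eventually h3] with q hq D
  refine le_trans (le_of_eq ?_) (((ContinuousLinearMap.le_opNorm _ D)).trans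
    (mul_le_mul_of_nonneg_right hq (norm_nonneg D)))
  rw [Real.norm_eq_abs]
  congr 1
  change _ = ⟪q.2.2, m.S q.2.1 D⟫ - ⟪q.1.2, m.S q.1.1 D⟫ -
    (⟪z.2, fderiv ℝ m.S z.1 (q.2.1 - q.1.1) D⟫ + ⟪q.2.2 - q.1.2, m.S z.1 D⟫)
  rw [cv_apply, cv_apply, add_comm]

end Pool.Agent.MP_3ee8cb_gt.CZQ
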