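import Pool.Agent.MP_3ee8cb_gt.LV.All

/-! Two nearby geodesics and a continuous conjugacy: the basic inequality. -/

namespace Pool.Agent.MP_3ee8cb_gt.CZQ

open CR LV Set Filter Topology
open scoped RealInnerProductSpace

variable {n : ℕ}

/-- The facts used below. -/
structure Kit (g h : Met n) (Φ : ℝ → UT g → UT g) (Ψ : ℝ → UT h → UT h) (F : UT g ≃ₜ UT h)
    (G : Con n) (a : ℝ) : Prop where
  rg : Riem g
  rh : Riem h
  chr : ChrP h G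
  zero : ∀ p, Φ 0 p = p
  jc : JcP Ψ
  bg : BP g Φ
  bh : BP h Ψ
  tp : TP g h Φ Ψ F
  lps : LpsP h Ψ
  lb2 : Lb2P h G Ψ a
  cross : CrossP h Ψ

theorem kit_of {g h : Met n} {Γ Λ : Type} [Group Γ] [Group Λ] [MulAction Γ (E n)]
    [MulAction Λ (E n)] {Φ : ℝ → UT g → UT g} {Ψ : ℝ → UT h → UT h} {ρ : Γ ≃* Λ}
    {F : UT g ≃ₜ UT h} (qg : QP g Γ Φ) (qh : QP h Λ Ψ) (cj : CJ g h Φ Ψ ρ F) {a : ℝ} (ha : 0 < a)
    (hc : TB.CurvLe h a) : ∃ G, Kit g h Φ Ψ F G a := by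
  have hi := all_hinge n h Λ Ψ a qh.rp ha hc
  obtain ⟨mh, i2⟩ := hm n h Λ Ψ qh a ha hi
  have t := th n h Λ Ψ qh a ha mh i2
  have bh := bp n h Λ Ψ qh mh
  obtain ⟨G, hG⟩ := chr n h qh.rp.riem
  obtain ⟨mg, T⟩ := min2 n g h Γ Λ Φ Ψ ρ F qg qh cj
    (uq n g h Γ Λ Φ Ψ ρ F qg qh cj (eqv n h Λ Ψ qh mh)) (morse n h Λ Ψ qh a ha mh t)
  exact ⟨G, qg.rp.riem, qh.rp.riem, hG, qg.rp.flow.zero, qh.jc, bp n g Γ Φ qg mg, bh, T,
    lps n h Λ Ψ qh a ha mh t (lp1 n h Λ Ψ qh a ha mh i2),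
    lb2 n h Λ Ψ qh G a ha hG (tay2 n h Λ Ψ qh G hG (ode n h G Ψ qh.rp.riem hG qh.rp.flow))
      (lb n h Λ Ψ qh a ha hi bh), cross n h Λ Ψ qh⟩

variable {g h : Met n} {Φ : ℝ → UT g → UT g} {Ψ : ℝ → UT h → UT h} {F : UT g ≃ₜ UT h}
  {G : Con n} {a : ℝ}

/-- A point on the connecting geodesic, at a prescribed level. -/
theorem Kit.key (k : Kit g h Φ Ψ F G a) (w₀ : UT h) {δ : ℝ} (hδ : 0 < δ) :
    ∃ U ∈ 𝓝 w₀, ∃ δ', 0 < δ' ∧ ∀ (p p' : UT g) (t : ℝ), Ψ t (F p) ∈ U → Ψ t (F p') ∈ U →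
      ∀ c : ℝ, |c| ≤ δ' → ∃ z, ‖z - w₀.1.1‖ ≤ δ ∧ h w₀.1.1 w₀.1.2 (z - w₀.1.1) = c ∧
        ∀ x, bus h Ψ (Ψ t (F p')) z + bus h Ψ (ng (Ψ t (F p))) z ≤
          bus g Φ p' x + bus g Φ (ng p) x := by
  obtain ⟨ε, δ', e0, d0, hc⟩ := k.cross w₀ 0 δ hδ
  obtain ⟨U, hU, hl⟩ := k.lps w₀ ε e0
  set l := h w₀.1.1 w₀.1.2 with hl0
  set ν := (InnerProductSpace.toDual ℝ (E n)).symm l with hν
  have hνl : ∀ y, ⟪ν, y⟫ = l y := fun y => InnerProductSpace.toDual_symm_apply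
  refine ⟨U, hU, δ' / (‖ν‖ + 1), by positivity, fun p p' t hp hp' c hcb => ?_⟩
  obtain ⟨u, t₀, hu, hbot, htop⟩ := hl _ hp _ hp'
  have hq : ‖c • ν‖ ≤ δ' := by
    rw [norm_smul, Real.norm_eq_abs]
    rw [le_div_iff₀ (by positivity)] at hcb
    nlinarith [abs_nonneg c]
  obtain ⟨s, h1, h2⟩ := hc u (c • ν) hu hq
  refine ⟨_, h1, ?_, fun x => ?_⟩
  · have e1 : l w₀.1.2 = 1 := w₀.2
    generalize (Ψ s u).1.1 - w₀.1.1 = y at h2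
    simp only [lv, zero_apply, zero_div, add_zero, real_inner_smul_left, hνl,
      map_add, map_sub, map_smul, smul_eq_mul, e1] at h2
    linarith
  · rw [← k.bh.top _ _ htop, k.bh.shift, k.bh.self, ← k.bh.bot _ _ hbot, k.bh.back]
    obtain ⟨v, rfl⟩ := F.surjective u
    have e1 := k.bg.top (Φ t₀ v) (Φ t p')
      (k.tp.top _ _ (by simpa only [k.tp.flow] using htop)) x
    have e2 := k.bg.bot v (Φ t p) (k.tp.bot _ _ (by simpa only [k.tp.flow] using hbot)) x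
    rw [k.bg.shift, k.bg.shift] at e1
    rw [k.bg.bshift] at e2
    have e4 := k.bg.opp v x
    linarith

theorem near {X Z : Type} [TopologicalSpace X] [NormedAddCommGroup Z] {f : X → Z} {x : X}
    (hf : ContinuousAt f x) {η : ℝ} (hη : 0 < η) : ∀ᶠ y in 𝓝 x, ‖f y - f x‖ < η :=
  (hf.sub continuousAt_const).norm.eventually_lt continuousAt_const (by simpa using hη)

theorem csub {X Z : Type} [TopologicalSpace X] [NormedAddCommGroup Z] {f g : X → Z}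
    (hf : Continuous f) (hg : Continuous g) : Continuous fun x => f x - g x := hf.sub hg

/-- The lower bound with coefficients frozen at `w₀`. -/
theorem Kit.low (k : Kit g h Φ Ψ F G a) (ha : 0 < a) (w₀ : UT h) {ε : ℝ} (hε : 0 < ε) :
    ∃ r, 0 < r ∧ ∀ᶠ w in 𝓝 w₀, ∀ D : E n, ‖D‖ ≤ r →
      (-h w.1.1 w.1.2 D - h w₀.1.1 w₀.1.2 (G w₀.1.1 D D) / 2 +
        a / 2 * (h w₀.1.1 D D - h w₀.1.1 w₀.1.2 D ^ 2) - ε * ‖D‖ ^ 2 ≤ bus h Ψ w (w.1.1 + D)) ∧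
      (h w.1.1 w.1.2 D + h w₀.1.1 w₀.1.2 (G w₀.1.1 D D) / 2 +
        a / 2 * (h w₀.1.1 D D - h w₀.1.1 w₀.1.2 D ^ 2) - ε * ‖D‖ ^ 2 ≤
          bus h Ψ (ng w) (w.1.1 + D)) := by
  obtain ⟨r, r0, hr⟩ := k.lb2 (‖w₀.1.1‖ + 1) (ε / 3) (by positivity)
  have c1 : Continuous fun w : UT h => w.1.1 := continuous_fst.comp continuous_subtype_val
  have c2 : Continuous fun w : UT h => w.1.2 := continuous_snd.comp continuous_subtype_val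
  have ch : Continuous fun w : UT h => h w.1.1 := k.rh.smooth.continuous.comp c1
  have ca : Continuous fun w : UT h => h w.1.1 w.1.2 := ch.clm_apply c2
  have cG : Continuous fun w : UT h => G w.1.1 := k.chr.smooth.continuous.comp c1
  let B₁ : UT h → E n →L[ℝ] E n →L[ℝ] ℝ := fun w =>
    (ContinuousLinearMap.compL ℝ (E n) (E n) ℝ (h w.1.1 w.1.2)).comp (G w.1.1)
  let B₂ : UT h → E n →L[ℝ] E n →L[ℝ] ℝ := fun w =>
    h w.1.1 - (h w.1.1 w.1.2).smulRight (h w.1.1 w.1.2)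
  have k1 : Continuous B₁ :=
    ((ContinuousLinearMap.compL ℝ (E n) (E n) ℝ).continuous.comp ca).clm_comp cG
  have k2 : Continuous B₂ := csub (Z := E n →L[ℝ] E n →L[ℝ] ℝ) ch
    ((ContinuousLinearMap.smulRightL ℝ (E n) (E n →L[ℝ] ℝ)).continuous₂.comp (ca.prodMk ca))
  have e1 : ∀ᶠ w in 𝓝 w₀, ‖B₁ w - B₁ w₀‖ < ε / 3 :=
    near (Z := E n →L[ℝ] E n →L[ℝ] ℝ) k1.continuousAt (by positivity)
  have e2 : ∀ᶠ w in 𝓝 w₀, ‖B₂ w - B₂ w₀‖ < ε / 3 / a :=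
    near (Z := E n →L[ℝ] E n →L[ℝ] ℝ) k2.continuousAt (by positivity)
  have e3 : ∀ᶠ w : UT h in 𝓝 w₀, ‖w.1.1‖ < ‖w₀.1.1‖ + 1 :=
    c1.norm.continuousAt.eventually_lt continuousAt_const (by simp)
  refine ⟨r, r0, ?_⟩
  filter_upwards [e1, e2, e3] with w h1 h2 h3 D hD
  have b : ∀ (B : E n →L[ℝ] E n →L[ℝ] ℝ) (η : ℝ), ‖B‖ < η → |B D D| ≤ η * ‖D‖ ^ 2 :=
    fun B η hB => by
      have := B.le_opNorm₂ D D
      rw [Real.norm_eq_abs] at this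
      nlinarith [sq_nonneg ‖D‖]
  have a1 := abs_le.1 (b _ _ h1)
  have a2 := abs_le.1 (b _ _ h2)
  have a3 := hr w D h3.le hD
  have a4 := hr (ng w) D h3.le hD
  simp only [B₁, B₂, sub_apply, ContinuousLinearMap.comp_apply,
    ContinuousLinearMap.compL_apply, ContinuousLinearMap.smulRight_apply,
    smul_apply, smul_eq_mul] at a1 a2
  simp only [ng, map_neg, neg_apply, neg_neg, neg_sq] at a4
  have a5 : a * (ε / 3 / a * ‖D‖ ^ 2) = ε / 3 * ‖D‖ ^ 2 := by field_simp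
  have a6 := mul_le_mul_of_nonneg_left a2.1 ha.le
  have p : 0 ≤ ε * ‖D‖ ^ 2 := by positivity
  constructor
  · nlinarith [a1.2]
  · change _ ≤ bus h Ψ ⟨(w.1.1, -w.1.2), _⟩ _
    nlinarith [a1.1]

end Pool.Agent.MP_3ee8cb_gt.CZQ
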